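import Mathlib
import Pool.Agent.N253.LS.Exq
import Pool.Agent.N253.LS.Exp
import Pool.Agent.N253.LS.Free
import Pool.Agent.N253.LS.Bnd2
import Pool.Agent.N253.LC.Der
import Pool.Agent.N253.LC.Int
import Pool.Agent.N253.SM.Fin

/-!
# Collet-Eckmann parameters with slow recurrence are not infinitely renormalizable, part A

Lifting of paths; expansion along escaping orbits; rays; short segments (helper253).
-/

set_option autoImplicit false

open Set Filter Metric Topology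

namespace Pool.Agent.N253.NR

open Pool.Agent.TH279.MD Pool.Agent.Y298.SH Pool.Agent.Y298.SH.CD Pool.Agent.Y298.CA
open Pool.Agent.H712R2 (P)
open Pool.Agent.N253.LC (Ray)
open Pool.Agent.N253.LC.Der
open Pool.Agent.N253.LS (Slow)

/-- the iterates as polynomials -/
noncomputable def pol (d : ℕ) (c : ℂ) (m : ℕ) : Polynomial ℂ :=
  (Polynomial.X ^ d + Polynomial.C c).comp^[m] Polynomial.X

theorem pol_eval (d : ℕ) (c : ℂ) (m : ℕ) (z : ℂ) : (pol d c m).eval z = (f d c)^[m] z := by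
  unfold pol
  rw [Polynomial.iterate_comp_eval, Polynomial.eval_X]
  congr 2
  funext x
  simp [f]

theorem pol_deriv (d : ℕ) (c : ℂ) (m : ℕ) (z : ℂ) :
    (pol d c m).derivative.eval z = deriv ((f d c)^[m]) z := by
  rw [← Polynomial.deriv]
  congr 1
  funext x
  exact pol_eval d c m x

/-- **Lifting of paths** under the iterates. -/
theorem lift_it {d : ℕ} {c : ℂ} {m : ℕ} {γ : ℝ → ℂ} (hγ : ContinuousOn γ (Icc 0 1))
    (hcrit : ∀ s ∈ Icc (0 : ℝ) 1, ∀ z, (f d c)^[m] z = γ s → deriv ((f d c)^[m]) z ≠ 0) {z : ℂ}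
    (hz : (f d c)^[m] z = γ 0) :
    ∃ Z : ℝ → ℂ, ContinuousOn Z (Icc 0 1) ∧ Z 0 = z ∧
      ∀ s ∈ Icc (0 : ℝ) 1, (f d c)^[m] (Z s) = γ s := by
  have h1 := (pol d c m).isCoveringMapOn_eval
  obtain ⟨S, hS⟩ : ∃ S : Set ℂ, S = ((pol d c m).eval ''
    {k | (pol d c m).derivative.eval k = 0})ᶜ := ⟨_, rfl⟩
  rw [← hS] at h1
  have h2 := h1.isCoveringMap_restrictPreimage
  have hmem : ∀ s : unitInterval, γ s ∈ S := by
    intro s
    rw [hS]
    rintro ⟨k, hk, hk2⟩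
    have hk2 : (pol d c m).eval k = γ s := hk2
    rw [pol_eval] at hk2
    have hk : (pol d c m).derivative.eval k = 0 := hk
    rw [pol_deriv] at hk
    exact hcrit s s.2 k hk2 hk
  have hzS : z ∈ (pol d c m).eval ⁻¹' S := by
    rw [mem_preimage, pol_eval, hz]
    simpa using hmem 0
  obtain ⟨Γ, hΓ1, hΓ2⟩ := h2.exists_path_lifts
    ⟨fun s : unitInterval => ⟨γ s, hmem s⟩, by
      refine Continuous.subtype_mk ?_ _
      exact hγ.comp_continuous continuous_subtype_val (fun s => s.2)⟩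
    ⟨z, hzS⟩ (by
      apply Subtype.ext
      simp only [ContinuousMap.coe_mk, Set.restrictPreimage_coe]
      rw [pol_eval, hz]
      simp)
  refine ⟨fun s => (Γ (projIcc 0 1 zero_le_one s) : ℂ), ?_, ?_, ?_⟩
  · refine Continuous.continuousOn ?_
    exact continuous_subtype_val.comp (Γ.continuous.comp continuous_projIcc)
  · simp only [projIcc_left]
    have : Γ 0 = ⟨z, hzS⟩ := hΓ2
    rw [show (⟨0, left_mem_Icc.mpr zero_le_one⟩ : unitInterval) = 0 from rfl, this]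
  · intro s hs
    have h3 := congrFun hΓ1 ⟨s, hs⟩
    simp only [Function.comp, ContinuousMap.coe_mk] at h3
    have h4 := congrArg Subtype.val h3
    rw [Set.restrictPreimage_coe, pol_eval] at h4
    show (f d c)^[m] (Γ (projIcc 0 1 zero_le_one s) : ℂ) = γ s
    rw [projIcc_of_mem zero_le_one hs]
    exact h4

/-- the escaping orbits do not meet the critical point -/
theorem ne_zero_of_esc {d : ℕ} {c : ℂ} {C₁ lam : ℝ} (hCE : CEp d C₁ lam c) {y : ℂ} {n : ℕ}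
    (h3 : 3 < ‖(f d c)^[n] y‖) {j : ℕ} (hj : j < n) : (f d c)^[j] y ≠ 0 := by
  intro h0
  have h1 : (f d c)^[n] y = zz d c (n - j - 1) := by
    have e : n = (n - j - 1) + (1 + j) := by omega
    conv_lhs => rw [e]
    rw [Function.iterate_add_apply, Function.iterate_add_apply, h0]
    unfold zz
    congr 1
    unfold f
    rw [Function.iterate_one, zero_pow (by have := hCE.hd; omega), zero_add]
  rw [h1] at h3
  have := hCE.bd (n - j - 1)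
  linarith

/-- Expansion along escaping orbits. -/
theorem exp_esc {d : ℕ} {c : ℂ} (hd : 2 ≤ d) (hS : Slow d c) : ∃ κ η : ℝ, 0 < κ ∧ κ ≤ 1 ∧ 0 < η ∧
    η ≤ Real.log d ∧ ∀ (y : ℂ) (n : ℕ), (∀ j < n, ‖(f d c)^[j] y‖ ≤ 3) → 3 < ‖(f d c)^[n] y‖ →
      κ * Real.exp (η * n) ≤ ‖deriv ((f d c)^[n]) y‖ := by
  obtain ⟨κ, η, a₁, A, r₀, hκ, hκ1, hη, hηd, -, -, hr₀, H⟩ :=
    LS.t_EXQ LS.t_FREE LS.t_BND2 (LS.t_EXP LS.t_FREE LS.t_BND2) d c hd hS
  obtain ⟨⟨C₁, lam, hCE⟩, -⟩ := hS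
  refine ⟨κ, η, hκ, hκ1, hη, hηd, ?_⟩
  intro y n h1 h2
  obtain ⟨r, hr0, hr1, hr⟩ : ∃ r : ℝ, 0 < r ∧ r ≤ r₀ ∧ ∀ j < n, r ≤ ‖(f d c)^[j] y‖ ^ d := by
    have : ∀ m : ℕ, m ≤ n → ∃ r : ℝ, 0 < r ∧ r ≤ r₀ ∧ ∀ j < m, r ≤ ‖(f d c)^[j] y‖ ^ d := by
      intro m
      induction m with
      | zero => exact fun _ => ⟨r₀, hr₀, le_rfl, fun j hj => absurd hj (Nat.not_lt_zero j)⟩
      | succ m ih =>
        intro hm
        obtain ⟨r, h0, h1, h2'⟩ := ih (by omega)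
        refine ⟨min r (‖(f d c)^[m] y‖ ^ d), lt_min h0 (pow_pos (norm_pos_iff.mpr
          (ne_zero_of_esc hCE h2 (by omega))) d), (min_le_left _ _).trans h1, fun j hj => ?_⟩
        rcases Nat.lt_succ_iff_lt_or_eq.mp hj with h | rfl
        · exact (min_le_left _ _).trans (h2' j h)
        · exact min_le_right _ _
    exact this n le_rfl
  exact (H c r y n hr0 hr1 (by rw [sub_self, norm_zero]; exact hr0.le)).1 h1 h2 hr

/-- Displacement along the rays. -/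
theorem disp0 {d : ℕ} {c : ℂ} (hd : 2 ≤ d) (hS : Slow d c) : ∃ C β : ℝ, 1 ≤ C ∧ 0 < β ∧ β ≤ 1 ∧
    ∀ (j : ℕ) (v : ℂ) (Y : ℝ → ℂ) (a b : ℝ), 0 < a → Ray d c j v Y a b → b ≤ 1 →
      ‖Y a - Y b‖ ≤ C * b ^ β := by
  obtain ⟨κ, η, hκ, hκ1, hη, hηd, H⟩ := exp_esc hd hS
  obtain ⟨⟨C₁, lam, hCE⟩, -⟩ := hS
  obtain ⟨C, hC, HD⟩ := LC.t_DER d hd
  have hc2 : ‖c‖ ≤ 2 := hCE.bd 0
  have hdR : (2 : ℝ) ≤ d := by exact_mod_cast hd
  have hd0 : (0 : ℝ) < d := by linarith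
  have hlog : 0 < Real.log d := Real.log_pos (by linarith)
  obtain ⟨β, hβ⟩ : ∃ β : ℝ, β = η / Real.log d := ⟨_, rfl⟩
  have hβ0 : 0 < β := by rw [hβ]; positivity
  have hβ1 : β ≤ 1 := by rw [hβ, div_le_one hlog]; exact hηd
  have hηβ : η = β * Real.log d := by rw [hβ]; field_simp
  have hK1 : 1 ≤ C ^ 2 / κ / β := by
    rw [le_div_iff₀ hβ0, le_div_iff₀ hκ]
    nlinarith
  refine ⟨C ^ 2 / κ / β, β, hK1, hβ0, hβ1, ?_⟩
  intro j v Y a b ha hR hb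
  have hint := LC.t_INT Y a b (C ^ 2 / κ) β 0 (fun _ => 0) (fun _ => 0) (fun _ => 0) ha hR.le
    (by positivity) hβ0 hβ1 hR.cont (fun _ => le_rfl) (fun i hi => absurd hi (Nat.not_lt_zero i)) ?_
  · simpa using hint
  intro t ht _
  -- the time of escape
  have ht0 : 0 < t := ha.trans ht.1
  have hj3 : 3 < ‖(f d c)^[j] (Y t)‖ := by
    rw [hR.eq t (Ioo_subset_Icc_self ht), norm_mul, hR.unit, mul_one, Complex.norm_real,
      Real.norm_of_nonneg (Real.exp_pos _).le]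
    have h1 := hR.four
    have h2 : Real.exp ((d : ℝ) ^ j * a) ≤ Real.exp ((d : ℝ) ^ j * t) := by
      apply Real.exp_le_exp.mpr
      exact mul_le_mul_of_nonneg_left ht.1.le (by positivity)
    linarith
  obtain ⟨k, hk⟩ : ∃ k, k = Nat.find (⟨j, hj3⟩ : ∃ k, 3 < ‖(f d c)^[k] (Y t)‖) := ⟨_, rfl⟩
  have hk3 : 3 < ‖(f d c)^[k] (Y t)‖ := by
    rw [hk]; exact Nat.find_spec (⟨j, hj3⟩ : ∃ k, 3 < ‖(f d c)^[k] (Y t)‖)
  have hkj : k ≤ j := by rw [hk]; exact Nat.find_min' _ hj3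
  have hkm : ∀ l < k, ‖(f d c)^[l] (Y t)‖ ≤ 3 := by
    intro l hl
    rw [hk] at hl
    exact not_lt.mp (Nat.find_min _ hl)
  obtain ⟨h1, y', hy', h2⟩ := HD c j v Y a b hR (by linarith) hb t ht k hkj hkm hk3
  refine ⟨y', hy', ?_⟩
  have h3 := H (Y t) k hkm hk3
  have h4 : ‖y'‖ * (κ * Real.exp (η * k)) ≤ C * d ^ k :=
    (mul_le_mul_of_nonneg_left h3 (norm_nonneg _)).trans h2
  -- `exp (η k) = (d ^ k) ^ β`
  have h5 : Real.exp (η * k) = ((d : ℝ) ^ k) ^ β := by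
    rw [Real.rpow_def_of_pos (by positivity), Real.log_pow, hηβ]
    ring_nf
  rw [h5] at h4
  have hX : 0 < (d : ℝ) ^ k := by positivity
  have h6 : ‖y'‖ ≤ C / κ * ((d : ℝ) ^ k) ^ (1 - β) := by
    rw [Real.rpow_sub hX, Real.rpow_one, div_mul_div_comm, le_div_iff₀ (by positivity)]
    linarith
  have h7 : ((d : ℝ) ^ k) ^ (1 - β) ≤ (C / t) ^ (1 - β) := by
    apply Real.rpow_le_rpow hX.le _ (by linarith)
    rwa [le_div_iff₀ ht0]
  have h8 : (C / t) ^ (1 - β) ≤ C * t ^ (β - 1) := by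
    rw [Real.div_rpow (by linarith) ht0.le, div_eq_mul_inv, ← Real.rpow_neg ht0.le]
    rw [show -(1 - β) = β - 1 by ring]
    apply mul_le_mul_of_nonneg_right _ (by positivity)
    calc C ^ (1 - β) ≤ C ^ (1 : ℝ) := Real.rpow_le_rpow_of_exponent_le hC (by linarith)
      _ = C := Real.rpow_one C
  calc ‖y'‖ ≤ C / κ * ((d : ℝ) ^ k) ^ (1 - β) := h6
    _ ≤ C / κ * (C * t ^ (β - 1)) := by
        apply mul_le_mul_of_nonneg_left (h7.trans h8) (by positivity)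
    _ = C ^ 2 / κ * t ^ (β - 1) := by ring

/-- Derivatives of the iterates along escaping orbits. -/
theorem deriv_low {d : ℕ} {c : ℂ} (hd : 2 ≤ d) (hS : Slow d c) : ∃ κ η : ℝ, 0 < κ ∧ κ ≤ 1 ∧ 0 < η ∧
    η ≤ Real.log d ∧ ∀ m₁ : ℕ, ∃ B : ℝ, 0 < B ∧ ∀ (m : ℕ) (w q : ℂ), (f d c)^[m] w = q → ‖q‖ ≤ 3 →
      3 < ‖(f d c)^[m₁] q‖ → Real.exp (η * m) ≤ B * ‖deriv ((f d c)^[m]) w‖ := by
  obtain ⟨κ, η, hκ, hκ1, hη, hηd, H⟩ := exp_esc hd hS
  obtain ⟨⟨C₁, lam, hCE⟩, -⟩ := hS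
  have hc2 : ‖c‖ ≤ 2 := hCE.bd 0
  have hdR : (2 : ℝ) ≤ d := by exact_mod_cast hd
  obtain ⟨Q, hQ⟩ : ∃ Q : ℝ, Q = (d : ℝ) * 3 ^ (d - 1) := ⟨_, rfl⟩
  have hQ1 : 1 ≤ Q := by
    rw [hQ]
    have : (1 : ℝ) ≤ 3 ^ (d - 1) := one_le_pow₀ (by norm_num)
    nlinarith
  refine ⟨κ, η, hκ, hκ1, hη, hηd, fun m₁ => ⟨Q ^ m₁ / κ, by positivity, ?_⟩⟩
  intro m w q hq hq3 hq1
  -- the time of escape of `q`
  obtain ⟨k, hk⟩ : ∃ k, k = Nat.find (⟨m₁, hq1⟩ : ∃ k, 3 < ‖(f d c)^[k] q‖) := ⟨_, rfl⟩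
  have hk3 : 3 < ‖(f d c)^[k] q‖ := by
    rw [hk]; exact Nat.find_spec (⟨m₁, hq1⟩ : ∃ k, 3 < ‖(f d c)^[k] q‖)
  have hkm₁ : k ≤ m₁ := by rw [hk]; exact Nat.find_min' _ hq1
  have hkm : ∀ l < k, ‖(f d c)^[l] q‖ ≤ 3 := by
    intro l hl
    rw [hk] at hl
    exact not_lt.mp (Nat.find_min _ hl)
  -- the orbit of `w` up to `m`
  have hstep : ∀ l, 3 < ‖(f d c)^[l] w‖ → 3 < ‖(f d c)^[l + 1] w‖ := by
    intro l hl
    rw [Function.iterate_succ_apply']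
    set u := (f d c)^[l] w with hu
    have h1 : ‖u ^ d‖ ≤ ‖f d c u‖ + ‖c‖ := by
      have := norm_sub_le (f d c u) c
      unfold f at this ⊢
      rwa [add_sub_cancel_right] at this
    rw [norm_pow] at h1
    have h2 : ‖u‖ ^ 2 ≤ ‖u‖ ^ d := pow_le_pow_right₀ (by linarith) hd
    nlinarith
  have hw : ∀ l ≤ m, ‖(f d c)^[l] w‖ ≤ 3 := by
    intro l hl
    by_contra hcon
    push Not at hcon
    have : ∀ i, 3 < ‖(f d c)^[l + i] w‖ := by
      intro i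
      induction i with
      | zero => exact hcon
      | succ i ih => exact hstep _ ih
    have h1 := this (m - l)
    rw [show l + (m - l) = m by omega, hq] at h1
    linarith
  have hesc : ∀ l < m + k, ‖(f d c)^[l] w‖ ≤ 3 := by
    intro l hl
    rcases Nat.lt_or_ge l m with h | h
    · exact hw l h.le
    · obtain ⟨i, rfl⟩ : ∃ i, l = i + m := ⟨l - m, by omega⟩
      rw [Function.iterate_add_apply, hq]
      exact hkm i (by omega)
  have hesc2 : 3 < ‖(f d c)^[m + k] w‖ := by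
    rw [add_comm, Function.iterate_add_apply, hq]
    exact hk3
  have h1 := H w (m + k) hesc hesc2
  have h2 := deriv_prod d c m k w
  have h3 : ∏ i ∈ Finset.range k, ‖(f d c)^[m + i] w‖ ^ (d - 1) ≤ (3 ^ (d - 1)) ^ k := by
    calc ∏ i ∈ Finset.range k, ‖(f d c)^[m + i] w‖ ^ (d - 1)
        ≤ ∏ _i ∈ Finset.range k, (3 : ℝ) ^ (d - 1) := by
          apply Finset.prod_le_prod
          · intro i _
            positivity
          · intro i hi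
            rw [Finset.mem_range] at hi
            exact pow_le_pow_left₀ (norm_nonneg _) (hesc _ (by omega)) _
      _ = (3 ^ (d - 1)) ^ k := by rw [Finset.prod_const, Finset.card_range]
  have h4 : (d : ℝ) ^ k * ∏ i ∈ Finset.range k, ‖(f d c)^[m + i] w‖ ^ (d - 1) ≤ Q ^ m₁ := by
    calc (d : ℝ) ^ k * ∏ i ∈ Finset.range k, ‖(f d c)^[m + i] w‖ ^ (d - 1)
        ≤ (d : ℝ) ^ k * (3 ^ (d - 1)) ^ k := by gcongr
      _ = Q ^ k := by rw [hQ, mul_pow]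
      _ ≤ Q ^ m₁ := pow_le_pow_right₀ hQ1 hkm₁
  have h5 : Real.exp (η * m) ≤ Real.exp (η * (m + k : ℕ)) := by
    apply Real.exp_le_exp.mpr
    push_cast
    have : 0 ≤ η * (k : ℝ) := by positivity
    nlinarith
  rw [div_mul_eq_mul_div, le_div_iff₀ hκ]
  calc Real.exp (η * m) * κ ≤ κ * Real.exp (η * (m + k : ℕ)) := by nlinarith
    _ ≤ ‖deriv ((f d c)^[m + k]) w‖ := h1
    _ = ‖deriv ((f d c)^[m]) w‖ * _ := h2
    _ ≤ ‖deriv ((f d c)^[m]) w‖ * Q ^ m₁ := mul_le_mul_of_nonneg_left h4 (norm_nonneg _)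
    _ = Q ^ m₁ * ‖deriv ((f d c)^[m]) w‖ := mul_comm _ _

/-- The lift of a short segment is short. -/
theorem seg_disp {d : ℕ} {c : ℂ} {m : ℕ} {D : ℝ} (hD : 0 < D) {Z : ℝ → ℂ} {q₀ q₁ : ℂ}
    (hZ : ContinuousOn Z (Icc 0 1))
    (he : ∀ s ∈ Icc (0 : ℝ) 1, (f d c)^[m] (Z s) = q₀ + s * (q₁ - q₀))
    (hder : ∀ s ∈ Icc (0 : ℝ) 1, D ≤ ‖deriv ((f d c)^[m]) (Z s)‖) :
    ‖Z 0 - Z 1‖ ≤ 2 * (‖q₁ - q₀‖ / D) := by
  have hint := LC.t_INT (fun t => Z (t - 1)) 1 2 (‖q₁ - q₀‖ / D) 1 0 (fun _ => 0) (fun _ => 0)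
    (fun _ => 0) one_pos one_le_two (by positivity) one_pos le_rfl ?_ (fun _ => le_rfl)
    (fun i hi => absurd hi (Nat.not_lt_zero i)) ?_
  · norm_num at hint
    linarith
  · refine hZ.comp (by fun_prop) (fun t ht => ?_)
    exact ⟨by linarith [ht.1], by linarith [ht.2]⟩
  intro t ht _
  obtain ⟨s, hs⟩ : ∃ s : ℝ, s = t - 1 := ⟨_, rfl⟩
  have hs0 : s ∈ Ioo (0 : ℝ) 1 := ⟨by rw [hs]; linarith [ht.1], by rw [hs]; linarith [ht.2]⟩
  have hs1 : s ∈ Icc (0 : ℝ) 1 := Ioo_subset_Icc_self hs0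
  have hG' : deriv ((f d c)^[m]) (Z s) ≠ 0 := by
    intro h0
    have := hder s hs1
    rw [h0, norm_zero] at this
    linarith
  have hstr : HasStrictDerivAt ((f d c)^[m]) (deriv ((f d c)^[m]) (Z s)) (Z s) :=
    (diff_it d c m).contDiffAt.hasStrictDerivAt one_ne_zero
  have hleft := (hstr.hasStrictFDerivAt_equiv hG').eventually_left_inverse
  have hinv := (hstr.to_localInverse hG').hasDerivAt
  have hYc : ContinuousAt Z s := (hZ s hs1).continuousAt (Icc_mem_nhds hs0.1 hs0.2)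
  have hh : HasDerivAt (fun x : ℝ => q₀ + (x : ℂ) * (q₁ - q₀)) (q₁ - q₀) s := by
    have h1 : HasDerivAt (fun x : ℝ => (x : ℂ)) 1 s := Complex.ofRealCLM.hasDerivAt
    simpa using (h1.mul_const (q₁ - q₀)).const_add q₀
  have hcomp := HasDerivAt.scomp_of_eq (𝕜' := ℂ) s hinv hh (he s hs1)
  have hev : Z =ᶠ[𝓝 s] (hstr.localInverse ((f d c)^[m]) _ (Z s) hG') ∘
      (fun x : ℝ => q₀ + (x : ℂ) * (q₁ - q₀)) := by
    filter_upwards [hYc.eventually hleft, Icc_mem_nhds hs0.1 hs0.2] with x hx1 hx2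
    simp only [Function.comp]
    rw [← he x hx2]
    exact hx1.symm
  have hZ' := hcomp.congr_of_eventuallyEq hev
  have h2 : HasDerivAt (fun t : ℝ => Z (t - 1)) ((q₁ - q₀) • (deriv ((f d c)^[m]) (Z s))⁻¹) t := by
    have hZ'' : HasDerivAt Z ((q₁ - q₀) • (deriv ((f d c)^[m]) (Z s))⁻¹) (t - 1) := by
      rw [← hs]
      exact hZ'
    exact hZ''.comp_sub_const t 1
  refine ⟨_, h2, ?_⟩
  rw [smul_eq_mul, norm_mul, norm_inv, sub_self, Real.rpow_zero, mul_one, div_eq_mul_inv]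
  apply mul_le_mul_of_nonneg_left _ (norm_nonneg _)
  exact inv_anti₀ hD (hder s hs1)

end Pool.Agent.N253.NR
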