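import Mathlib
import Pool.Agent.N253.NR.A

/-!
# The filled Julia set of a Collet-Eckmann polynomial with slow recurrence has empty interior
-/

set_option autoImplicit false

open Set Filter Metric Topology

namespace Pool.Agent.N253.NR

open Pool.Agent.TH279.MD Pool.Agent.Y298.SH Pool.Agent.Y298.SH.CD Pool.Agent.Y298.CA
open Pool.Agent.H713R2.AR (KK)
open Pool.Agent.N253.SM
open Pool.Agent.N253.LS (Slow)

/-- The filled Julia set has empty interior. -/
theorem interior_KK' {d : ℕ} {c₀ : ℂ} (hd : 2 ≤ d) (hL : Slow d c₀) : interior (KK d c₀) = ∅ := by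
  have hE := LS.t_EXP LS.t_FREE LS.t_BND2
  obtain ⟨⟨C₁, lam, hCE⟩, -⟩ := id hL
  have hc₀2 : ‖c₀‖ ≤ 2 := hCE.bd 0
  -- Cauchy estimate
  have cau : ∀ (y : ℂ) (τ : ℝ), 0 < τ → closedBall y τ ⊆ KK d c₀ → ∀ n,
      ‖deriv ((f d c₀)^[n]) y‖ ≤ 2 / τ := by
    intro y τ hτ hsub n
    refine Complex.norm_deriv_le_of_forall_mem_sphere_norm_le hτ
      ⟨fun z _ => (hasDerivAt_it d c₀ n z).differentiableWithinAt, fun z _ =>
        (hasDerivAt_it d c₀ n z).continuousAt.continuousWithinAt⟩ ?_
    intro z hz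
    exact bd_two hd hc₀2 (hsub (sphere_subset_closedBall hz)) n
  rw [Set.eq_empty_iff_forall_notMem]
  -- the critical value is not an interior point
  have hc₀i : c₀ ∉ interior (KK d c₀) := by
    intro h
    obtain ⟨τ, hτ, hsub⟩ := Metric.isOpen_iff.mp isOpen_interior _ h
    have h1 := cau c₀ (τ / 2) (by positivity)
      ((closedBall_subset_ball (by linarith)).trans (hsub.trans interior_subset))
    have hl := hCE.lam1
    have hC := hCE.C1
    obtain ⟨n, hn⟩ := pow_unbounded_of_one_lt (C₁ * (2 / (τ / 2))) hl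
    have h2 := hCE.exp n
    have h3 : Pd d c₀ n ≤ 2 / (τ / 2) := h1 n
    have h4 : C₁ * Pd d c₀ n ≤ C₁ * (2 / (τ / 2)) := by gcongr
    linarith
  have hfi : ∀ y ∈ interior (KK d c₀), f d c₀ y ∈ interior (KK d c₀) := by
    intro y hy
    have hopen : IsOpenMap (f d c₀) := by
      have h1 : AnalyticOnNhd ℂ (f d c₀) univ := by
        intro z _
        unfold f
        fun_prop
      rcases h1.is_constant_or_isOpen isPreconnected_univ with ⟨w, hw⟩ | h2
      · exfalso
        have h3 := hw 0 (mem_univ _)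
        have h4 := hw 1 (mem_univ _)
        unfold f at h3 h4
        rw [zero_pow (by omega)] at h3
        rw [one_pow] at h4
        rw [← h3] at h4
        simp at h4
      · intro s hs
        exact h2 s (subset_univ _) hs
    have h1 : f d c₀ '' interior (KK d c₀) ⊆ interior (KK d c₀) := by
      apply interior_maximal _ (hopen _ isOpen_interior)
      rintro _ ⟨x, hx, rfl⟩
      exact (KK_iff d c₀ x).mp (interior_subset hx)
    exact h1 ⟨y, hy, rfl⟩
  intro y hy
  have hiter : ∀ n, (f d c₀)^[n] y ∈ interior (KK d c₀) := by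
    intro n
    induction n with
    | zero => exact hy
    | succ n ih => rw [Function.iterate_succ_apply']; exact hfi _ ih
  have hne : ∀ n, (f d c₀)^[n] y ≠ 0 := by
    intro n h0
    apply hc₀i
    have h1 := hiter (n + 1)
    rw [Function.iterate_succ_apply', h0] at h1
    have h2 : f d c₀ 0 = c₀ := by
      unfold f
      rw [zero_pow (by omega), zero_add]
    rwa [h2] at h1
  obtain ⟨κ, η, K, r₁, hκ, hκ1, hη, hK, hr₁, HE⟩ := hE d c₀ hd hL
  obtain ⟨τ, hτ, hsub⟩ := Metric.isOpen_iff.mp isOpen_interior _ hy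
  have h1 := cau y (τ / 2) (by positivity)
    ((closedBall_subset_ball (by linarith)).trans (hsub.trans interior_subset))
  -- large times
  have hbig : ∀ n : ℕ, κ * Real.exp (η * n) ≤ ‖deriv ((f d c₀)^[n]) y‖ →
      κ * (η * n) ≤ 2 / (τ / 2) := by
    intro n hn
    have h2 := h1 n
    have h3 := Real.add_one_le_exp (η * n)
    have h4 : κ * (η * n) ≤ κ * Real.exp (η * n) := by
      gcongr; linarith
    linarith
  obtain ⟨N, hN⟩ := exists_nat_gt (2 / (τ / 2) / (κ * η))
  have hN' : ∀ n : ℕ, N ≤ n → ¬ κ * Real.exp (η * n) ≤ ‖deriv ((f d c₀)^[n]) y‖ := by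
    intro n hn hcon
    have h2 := hbig n hcon
    have h3 : (N : ℝ) ≤ n := by exact_mod_cast hn
    rw [div_lt_iff₀ (by positivity)] at hN
    have h4 : N * (κ * η) ≤ n * (κ * η) := by gcongr
    linarith
  -- a bound for the length of the passages which begin before `N`
  obtain ⟨B, hB⟩ : ∃ B : ℝ, ∀ i < N, K * (1 + Real.log (1 / ‖(f d c₀)^[i] y‖)) ≤ B := by
    refine ⟨∑ i ∈ Finset.range N, |K * (1 + Real.log (1 / ‖(f d c₀)^[i] y‖))|, fun i hi => ?_⟩
    refine (le_abs_self _).trans ?_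
    exact Finset.single_le_sum (f := fun i => |K * (1 + Real.log (1 / ‖(f d c₀)^[i] y‖))|)
      (fun i _ => abs_nonneg _) (Finset.mem_range.mpr hi)
  obtain ⟨m, hm⟩ := exists_nat_gt (N + |B|)
  have hNm : N ≤ m := by
    have : (N : ℝ) < m := by linarith [abs_nonneg B]
    exact_mod_cast this.le
  -- the scale
  obtain ⟨r, hr0, hr1, hr⟩ : ∃ r : ℝ, 0 < r ∧ r ≤ r₁ ∧ ∀ j < m, r ≤ ‖(f d c₀)^[j] y‖ ^ d := by
    have : ∀ m : ℕ, ∃ r : ℝ, 0 < r ∧ r ≤ r₁ ∧ ∀ j < m, r ≤ ‖(f d c₀)^[j] y‖ ^ d := by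
      intro m
      induction m with
      | zero => exact ⟨r₁, hr₁, le_rfl, fun j hj => absurd hj (Nat.not_lt_zero j)⟩
      | succ m ih =>
        obtain ⟨r, h0, h1, h2⟩ := ih
        refine ⟨min r (‖(f d c₀)^[m] y‖ ^ d), lt_min h0 (pow_pos (norm_pos_iff.mpr (hne m)) d),
          (min_le_left _ _).trans h1, fun j hj => ?_⟩
        rcases Nat.lt_succ_iff_lt_or_eq.mp hj with h | rfl
        · exact (min_le_left _ _).trans (h2 j h)
        · exact min_le_right _ _
    exact this m
  rcases HE c₀ r y m hr0 hr1 (by rw [sub_self, norm_zero]; exact hr0.le)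
    (fun j _ => (bd_two hd hc₀2 (interior_subset hy) j).trans (by norm_num)) hr with h | h
  · exact hN' m hNm h
  · obtain ⟨i, him, h2, h3, h4, -, -⟩ := h
    have hiN : i < N := by
      by_contra hcon
      exact hN' i (not_lt.mp hcon) h2
    have h5 := hB i hiN
    have h6 : (i : ℝ) < N := by exact_mod_cast hiN
    have h7 := le_abs_self B
    linarith


end Pool.Agent.N253.NR
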