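import Mathlib
import Pool.Agent.N253.NR.B

/-!
# Collet-Eckmann parameters with slow recurrence are not infinitely renormalizable, part C
-/

set_option autoImplicit false

open Set Filter Metric Topology

namespace Pool.Agent.N253.NR

open Pool.Agent.TH279.MD Pool.Agent.Y298.SH Pool.Agent.Y298.SH.CD Pool.Agent.Y298.CA
open Pool.Agent.H712R2 (P fc)
open Pool.Agent.N253.LS (Slow)
open Pool.Agent.Y736.RN (PolyLike YY tree front_poly dc totallyDisconnected_of_dimH Deg)

theorem biUnion_ncard {F : Set ℂ} (hF : F.Finite) {g : ℂ → Set ℂ} {k : ℕ}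
    (hg : ∀ p ∈ F, (g p).Finite ∧ (g p).ncard ≤ k) :
    (⋃ p ∈ F, g p).Finite ∧ (⋃ p ∈ F, g p).ncard ≤ F.ncard * k := by
  classical
  have hfin : (⋃ p ∈ F, g p).Finite := hF.biUnion fun p hp => (hg p hp).1
  refine ⟨hfin, ?_⟩
  obtain ⟨F', rfl⟩ := hF.exists_finset_coe
  rw [Set.ncard_coe_finset]
  clear hfin hF
  induction F' using Finset.induction_on with
  | empty => simp
  | insert a s ha ih =>
    rw [Finset.card_insert_of_notMem ha, Finset.coe_insert, biUnion_insert]
    have h1 := hg a (by simp)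
    have h2 := ih (fun p hp => hg p (by simp only [Finset.coe_insert]; exact Or.inr hp))
    refine (Set.ncard_union_le _ _).trans ?_
    rw [add_mul, one_mul, add_comm]
    exact Nat.add_le_add h2 h1.2

/-- Renormalizable of period `p`: some restriction of `f^p` is polynomial-like of degree at most `d`,
and its filled Julia set is connected and contains the critical point. -/
def RenC (d : ℕ) (c : ℂ) (p : ℕ) : Prop :=
  ∃ U : Set ℂ, PolyLike d ((fc d c)^[p]) U ∧ (0 : ℂ) ∈ TR d c p U ∧ IsPreconnected (TR d c p U)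

/-- For large periods the trapped set is totally disconnected. -/
theorem tot_disc {d : ℕ} {c : ℂ} (hd : 2 ≤ d) (hS : Slow d c) : ∃ N₀ : ℕ, ∀ p : ℕ, N₀ ≤ p →
    ∀ U : Set ℂ, PolyLike d ((fc d c)^[p]) U → IsTotallyDisconnected (TR d c p U) := by
  obtain ⟨η, hη, H⟩ := cover hd hS
  have hdR : (2 : ℝ) ≤ d := by exact_mod_cast hd
  have hlog : 0 < Real.log d := Real.log_pos (by linarith)
  obtain ⟨N, hN⟩ := exists_nat_gt (Real.log d / η)
  refine ⟨max 1 N, fun p hp U hU => ?_⟩
  have hp1 : 1 ≤ p := (le_max_left _ _).trans hp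
  have hpN : Real.log d / η < p := by
    have : (N : ℝ) ≤ p := by exact_mod_cast (le_max_right _ _).trans hp
    linarith
  obtain ⟨K₄, F, hF, hFU, hcov⟩ := H p hp1 U hU
  have hX : 0 < η * p := by
    have : (0 : ℝ) < p := by exact_mod_cast hp1
    positivity
  apply totallyDisconnected_of_dimH
  have hdeg : Deg d p U c := by
    intro w hw
    have h1 : w ∈ (fc d c)^[p] '' U := hU.2.2.1 (subset_closure hw)
    have h4 := hU.2.2.2.2 w h1
    have h5 : {z | z ∈ U ∧ (fc d c)^[p] z = w}.Finite := finite_of_encard_le_coe h4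
    refine ⟨h5, ?_⟩
    rw [← h5.cast_ncard_eq] at h4
    exact_mod_cast h4
  have h1 := dc d (η * p) K₄ F.ncard 0 (fun n => ⋃ p₀ ∈ F, YY d p U p₀ n c) (TR d c p U)
    (by linarith) hX
    (fun n _ => by
      have h2 := biUnion_ncard hF (g := fun p₀ => YY d p U p₀ n c) (k := d ^ n)
        (fun p₀ hp₀ => tree hdeg (hFU hp₀) n)
      refine ⟨h2.1, ?_⟩
      exact_mod_cast h2.2)
    (fun x hx => by
      apply Eventually.frequently
      refine Eventually.of_forall fun n => ?_
      obtain ⟨p₀, hp₀, z, hz, hz2⟩ := hcov x hx n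
      exact ⟨z, mem_iUnion₂.mpr ⟨p₀, hp₀, hz⟩, hz2⟩)
  refine h1.trans_lt ?_
  rw [ENNReal.ofReal_lt_one, div_lt_one hX]
  rw [div_lt_iff₀ hη] at hpN
  linarith

/-- **Collet-Eckmann parameters with slow recurrence are renormalizable for finitely many periods
only.** -/
theorem finite_ren {d : ℕ} {c : ℂ} (hd : 2 ≤ d) (hS : Slow d c) : {p : ℕ | RenC d c p}.Finite := by
  obtain ⟨N₀, hN₀⟩ := tot_disc hd hS
  refine (Set.finite_lt_nat (max 1 N₀)).subset ?_
  intro p hp
  obtain ⟨U, hU, h0, hconn⟩ := hp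
  show p < max 1 N₀
  by_contra hcon
  push Not at hcon
  have h1 := hN₀ p ((le_max_right _ _).trans hcon) U hU
  have hp1 : 1 ≤ p := (le_max_left _ _).trans hcon
  have h2 : (TR d c p U).Subsingleton := h1 _ (Subset.refl _) hconn
  have h3 : (f d c)^[p * 1] 0 ∈ TR d c p U := TR_inv h0 1
  have h4 : (f d c)^[p * 1] 0 = 0 := h2 h3 h0
  obtain ⟨C, hC, h5⟩ := hS.2 1 one_pos
  have h6 := h5 (p - 1)
  have h7 : zz d c (p - 1) = 0 := by
    rw [← h4]
    unfold zz
    obtain ⟨k, rfl⟩ : ∃ k, p = k + 1 := ⟨p - 1, by omega⟩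
    rw [mul_one, Function.iterate_succ_apply, Nat.add_sub_cancel]
    congr 1
    unfold f
    rw [zero_pow (by omega), zero_add]
  rw [h7, norm_zero, mul_zero] at h6
  linarith

end Pool.Agent.N253.NR
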