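import Mathlib
import Pool.Agent.Y298.GA.JulR
import Pool.Agent.N253.SM.Fin

/-!
# The filled Julia set of a Collet-Eckmann polynomial is a null set
-/

set_option autoImplicit false

open Set Filter Metric Topology MeasureTheory

namespace Pool.Agent.N253.NR

open Pool.Agent.TH279.MD Pool.Agent.Y298.SH Pool.Agent.Y298.SH.CD
open Pool.Agent.Y298.GA
open Pool.Agent.H713R2.AR (KK)

theorem null_KK {d : ℕ} {C₁ lam : ℝ} {c : ℂ} (h : CEp d C₁ lam c) : volume (KK d c) = 0 := by
  have hd := h.hd
  have hdR : (2 : ℝ) ≤ d := by exact_mod_cast hd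
  have hd0 : (0 : ℝ) < d := by linarith
  have hc : ‖c‖ ≤ 2 := h.bd 0
  have hll : 0 < Real.log lam := Real.log_pos h.lam1
  have hlog : 0 < Real.log (2 * d) := Real.log_pos (by linarith)
  have hq : 0 < Real.log lam / Real.log (2 * d) := by positivity
  obtain ⟨C, ε, hC, hε, H⟩ := ak_ce (E := 1 / d) h (by positivity) (by
    have h1 : 1 / (d : ℝ) * (d - Real.log lam / Real.log (2 * d)) =
        1 - (1 / d) * (Real.log lam / Real.log (2 * d)) := by field_simp
    rw [h1]
    have : 0 < 1 / (d : ℝ) * (Real.log lam / Real.log (2 * d)) := by positivity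
    linarith)
  have hsub : KK d c ⊆ KG d (fun _ => c) := by
    intro z hz n
    have h1 := Pool.Agent.N253.SM.bd_two hd hc hz n
    have h2 : (fun z => z ^ d + (fun _ : ℂ => c) z)^[n] z = (f d c)^[n] z := rfl
    rw [h2]
    linarith
  have hb : ∀ r : ℝ, 0 < r → r ≤ ε → volume (KK d c) ≤ ENNReal.ofReal (C * r ^ (1 / (d : ℝ))) := by
    intro r hr hrε
    refine (measure_mono hsub).trans (H r hr hrε (fun _ => c) (differentiableOn_const _) ?_)
    intro z _
    simp only [sub_self, norm_zero]
    positivity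
  have hlim : Tendsto (fun r : ℝ => ENNReal.ofReal (C * r ^ (1 / (d : ℝ)))) (𝓝[>] 0) (𝓝 0) := by
    have h1 : Tendsto (fun r : ℝ => C * r ^ (1 / (d : ℝ))) (𝓝 0) (𝓝 0) := by
      have h2 : ContinuousAt (fun r : ℝ => C * r ^ (1 / (d : ℝ))) 0 := by
        refine ContinuousAt.mul continuousAt_const ?_
        exact Real.continuousAt_rpow_const 0 _ (Or.inr (by positivity))
      have h3 := h2.tendsto
      simp only [Real.zero_rpow (show (1 / (d : ℝ)) ≠ 0 by positivity), mul_zero] at h3
      exact h3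
    have h2 := ENNReal.tendsto_ofReal (h1.mono_left (nhdsWithin_le_nhds (s := Ioi (0 : ℝ))))
    simpa using h2
  refine le_antisymm (ge_of_tendsto hlim ?_) (by exact bot_le)
  filter_upwards [Ioc_mem_nhdsGT hε] with r hr
  exact hb r hr.1 hr.2

end Pool.Agent.N253.NR
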